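import Pool.Agent.H56.G3.TS

/-!
# Theorem (G), MP_c59857_nt, section 3b: from the integers to the logarithmic scale (SC)
-/

set_option autoImplicit false

namespace Pool.Agent.H61.G3.SC

open Finset Pool.Agent.H6.N4D Pool.Agent.H56.G3

/-- `S.n t = m` in terms of `t`. -/
theorem n_eq_iff {S : Par} (hh : 0 < S.h) {m : ℕ} (hm : 1 ≤ m) (t : ℤ) :
    S.n t = m ↔ ⌈Real.log m / S.h⌉ ≤ t ∧ t < ⌈Real.log (m + 1) / S.h⌉ := by
  have hm0 : (0 : ℝ) < m := by exact_mod_cast hm
  have hm1 : (0 : ℝ) < (m : ℝ) + 1 := by linarith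
  unfold Par.n Par.x
  rw [Nat.floor_eq_iff (Real.exp_pos _).le, Int.ceil_le, Int.lt_ceil, div_le_iff₀ hh,
    lt_div_iff₀ hh, ← Real.log_le_iff_le_exp hm0, ← Real.lt_log_iff_exp_lt hm1, mul_comm (t : ℝ)]

/-- the number of `t` with `S.n t = m` -/
theorem card_fiber {S : Par} (hh : 0 < S.h) {m : ℕ} (hm : 1 ≤ m) :
    S.h * ((S.I.filter (fun t => S.n t = m)).card : ℝ) ≤ 1 / m + S.h ∧
    S.h * ((S.I.filter (fun t => S.n t = m)).card : ℝ) ≤
      Real.log (m + 1) - Real.log m + S.h ∧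
    (S.n S.a < m → m < S.n S.b →
      Real.log (m + 1) - Real.log m - S.h ≤
        S.h * ((S.I.filter (fun t => S.n t = m)).card : ℝ)) := by
  have hm0 : (0 : ℝ) < m := by exact_mod_cast hm
  have hm1 : (0 : ℝ) < (m : ℝ) + 1 := by linarith
  have hlog : Real.log (m + 1) - Real.log m ≤ 1 / m := by
    rw [← Real.log_div hm1.ne' hm0.ne']
    have h1 := Real.log_le_sub_one_of_pos (div_pos hm1 hm0)
    have h2 : ((m : ℝ) + 1) / m - 1 = 1 / m := by
      field_simp
      ring
    rw [h2] at h1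
    exact h1
  have hmono : Real.log m / S.h ≤ Real.log (m + 1) / S.h := by
    apply div_le_div_of_nonneg_right _ hh.le
    exact Real.log_le_log hm0 (by linarith)
  have hc : ⌈Real.log m / S.h⌉ ≤ ⌈Real.log (m + 1) / S.h⌉ := Int.ceil_mono hmono
  have hcard : ((Ico ⌈Real.log m / S.h⌉ ⌈Real.log (m + 1) / S.h⌉).card : ℝ) =
      (⌈Real.log (m + 1) / S.h⌉ : ℝ) - ⌈Real.log m / S.h⌉ := by
    rw [Int.card_Ico]
    have h1 : ((⌈Real.log (m + 1) / S.h⌉ - ⌈Real.log m / S.h⌉).toNat : ℤ) =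
        ⌈Real.log (m + 1) / S.h⌉ - ⌈Real.log m / S.h⌉ := Int.toNat_of_nonneg (by omega)
    have h2 : (((⌈Real.log (m + 1) / S.h⌉ - ⌈Real.log m / S.h⌉).toNat : ℤ) : ℝ) =
        ((⌈Real.log (m + 1) / S.h⌉ - ⌈Real.log m / S.h⌉ : ℤ) : ℝ) := by rw [h1]
    push_cast at h2
    exact_mod_cast h2
  have hsub : S.I.filter (fun t => S.n t = m) ⊆
      Ico ⌈Real.log m / S.h⌉ ⌈Real.log (m + 1) / S.h⌉ := by
    intro t ht
    rw [mem_filter] at ht
    rw [mem_Ico]
    exact (n_eq_iff hh hm t).1 ht.2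
  have hup : S.h * ((S.I.filter (fun t => S.n t = m)).card : ℝ) ≤
      Real.log (m + 1) - Real.log m + S.h := by
    have h1 : ((S.I.filter (fun t => S.n t = m)).card : ℝ) ≤
        (⌈Real.log (m + 1) / S.h⌉ : ℝ) - ⌈Real.log m / S.h⌉ := by
      rw [← hcard]
      exact_mod_cast card_le_card hsub
    have h2 : (⌈Real.log (m + 1) / S.h⌉ : ℝ) < Real.log (m + 1) / S.h + 1 :=
      Int.ceil_lt_add_one _
    have h3 : Real.log m / S.h ≤ (⌈Real.log m / S.h⌉ : ℝ) := Int.le_ceil _
    have h4 : ((S.I.filter (fun t => S.n t = m)).card : ℝ) ≤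
        Real.log (m + 1) / S.h + 1 - Real.log m / S.h := by linarith
    have h5 := mul_le_mul_of_nonneg_left h4 hh.le
    have h6 : S.h * (Real.log (m + 1) / S.h + 1 - Real.log m / S.h) =
        Real.log (m + 1) - Real.log m + S.h := by
      field_simp
      ring
    rw [h6] at h5
    exact h5
  refine ⟨by linarith, hup, fun ha hb => ?_⟩
  have heq : Ico ⌈Real.log m / S.h⌉ ⌈Real.log (m + 1) / S.h⌉ ⊆
      S.I.filter (fun t => S.n t = m) := by
    intro t ht
    rw [mem_Ico] at ht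
    have hn : S.n t = m := (n_eq_iff hh hm t).2 ht
    rw [mem_filter, Par.mem_I]
    refine ⟨⟨?_, ?_⟩, hn⟩
    · by_contra hlt
      have h1 : S.x t ≤ S.x S.a := Par.x_mono hh (by omega)
      have h2 : S.n t ≤ S.n S.a := Nat.floor_mono h1
      omega
    · by_contra hlt
      have h1 : S.x S.b ≤ S.x t := Par.x_mono hh (by omega)
      have h2 : S.n S.b ≤ S.n t := Nat.floor_mono h1
      omega
  have h1 : (⌈Real.log (m + 1) / S.h⌉ : ℝ) - ⌈Real.log m / S.h⌉ ≤
      ((S.I.filter (fun t => S.n t = m)).card : ℝ) := by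
    rw [← hcard]
    exact_mod_cast card_le_card heq
  have h2 : Real.log (m + 1) / S.h ≤ (⌈Real.log (m + 1) / S.h⌉ : ℝ) := Int.le_ceil _
  have h3 : (⌈Real.log m / S.h⌉ : ℝ) < Real.log m / S.h + 1 := Int.ceil_lt_add_one _
  have h4 : Real.log (m + 1) / S.h - Real.log m / S.h - 1 ≤
      ((S.I.filter (fun t => S.n t = m)).card : ℝ) := by linarith
  have h5 := mul_le_mul_of_nonneg_left h4 hh.le
  have h6 : S.h * (Real.log (m + 1) / S.h - Real.log m / S.h - 1) =
      Real.log (m + 1) - Real.log m - S.h := by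
    field_simp
  rw [h6] at h5
  exact h5

/-- the telescoping sum -/
theorem sum_tel (h : ℝ) (A : ℕ) : ∀ B, A + 1 ≤ B →
    ∑ n ∈ Ico (A + 1) B, (h + (1 / (n : ℝ) - 1 / (n + 1))) =
      h * (B - A - 1) + (1 / ((A : ℝ) + 1) - 1 / B) := by
  intro B hB
  induction B, hB using Nat.le_induction with
  | base =>
    rw [Ico_self, sum_empty]
    push_cast
    ring
  | succ m hm ih =>
    rw [sum_Ico_succ_top hm, ih]
    push_cast
    ring

theorem log_lower {m : ℕ} (hm : 1 ≤ m) :
    1 / ((m : ℝ) + 1) ≤ Real.log (m + 1) - Real.log m := by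
  have hm0 : (0 : ℝ) < m := by exact_mod_cast hm
  have hm1 : (0 : ℝ) < (m : ℝ) + 1 := by linarith
  rw [← Real.log_div hm1.ne' hm0.ne']
  have h1 := Real.one_sub_inv_le_log_of_pos (div_pos hm1 hm0)
  have h2 : 1 - (((m : ℝ) + 1) / m)⁻¹ = 1 / (m + 1) := by
    rw [inv_div]
    field_simp
    ring
  rw [h2] at h1
  exact h1

theorem pf_SC : T_SC := by
  intro S F hOk hx hL hF
  have hh := hOk.hh
  -- `a ≤ b`
  have hN : 0 ≤ S.N * S.h := by
    refine le_trans ?_ hOk.hI1
    positivity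
  have hab : S.a ≤ S.b := by
    have h1 : 0 ≤ S.N := nonneg_of_mul_nonneg_left hN hh
    have h2 : (S.a : ℝ) ≤ S.b := by
      unfold Par.N at h1
      linarith
    exact_mod_cast h2
  obtain ⟨A, hA⟩ : ∃ A, A = S.n S.a := ⟨_, rfl⟩
  obtain ⟨B, hB⟩ : ∃ B, B = S.n S.b := ⟨_, rfl⟩
  have hAB : A ≤ B := by
    rw [hA, hB]
    exact Nat.floor_mono (Par.x_mono hh hab)
  have hA2 : 2 ≤ A := by
    rw [hA]
    exact Nat.le_floor (by exact_mod_cast hx)
  have hAx : S.x S.a < A + 1 := by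
    rw [hA]
    exact Nat.lt_floor_add_one _
  have hBX : (B : ℝ) ≤ S.X := by
    rw [hB]
    exact (Nat.floor_le (Par.x_pos _).le).trans hOk.hb
  have hA0 : (0 : ℝ) < A := by
    have : 0 < A := by omega
    exact_mod_cast this
  have hA2' : (2 : ℝ) ≤ A := by exact_mod_cast hA2
  have hB0 : (0 : ℝ) < B := lt_of_lt_of_le hA0 (by exact_mod_cast hAB)
  -- the sum grouped by the values
  obtain ⟨c, hc⟩ : ∃ c : ℕ → ℝ, c = fun m => S.h *
      ((S.I.filter (fun t => S.n t = m)).card : ℝ) := ⟨_, rfl⟩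
  have hsum : S.h * ∑ t ∈ S.I, F (S.n t) = ∑ m ∈ Icc A B, c m * F m := by
    rw [← sum_fiberwise_of_maps_to (s := S.I) (t := Icc A B) (g := fun t => S.n t)
      (f := fun t => F (S.n t)), mul_sum]
    · apply sum_congr rfl
      intro m _
      rw [sum_congr rfl (g := fun _ => F m) (fun t ht => by rw [(mem_filter.1 ht).2]),
        sum_const, nsmul_eq_mul, hc]
      ring
    · intro t ht
      rw [Par.mem_I] at ht
      rw [mem_Icc, hA, hB]
      exact ⟨Nat.floor_mono (Par.x_mono hh ht.1), Nat.floor_mono (Par.x_mono hh ht.2.le)⟩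
  have hc0 : ∀ m, 0 ≤ c m := by
    intro m
    rw [hc]
    positivity
  have hc1 : ∀ m, A ≤ m → c m ≤ 1 / m + S.h := by
    intro m hm
    rw [hc]
    exact (card_fiber hh (by omega)).1
  have hinv : ∀ m : ℕ, A ≤ m → 1 / (m : ℝ) ≤ 1 / A := by
    intro m hm
    exact one_div_le_one_div_of_le hA0 (by exact_mod_cast hm)
  have hFm : ∀ m, |F m| ≤ 1 := hF
  have hx3 : 3 / (A : ℝ) ≤ 8 / S.x S.a := by
    rw [div_le_div_iff₀ hA0 (by linarith)]
    linarith
  have hAX : (A : ℝ) ≤ B := by exact_mod_cast hAB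
  -- the difference
  have hdiff : S.h * ∑ t ∈ S.I, F (S.n t) - sS S F =
      c B * F B + ∑ m ∈ Ico A B, (c m - 1 / m) * F m := by
    rw [hsum]
    unfold sS
    rw [← hA, ← hB, ← Ico_succ_right_eq_Icc, Order.succ_eq_add_one, sum_Ico_succ_top hAB]
    have h1 : ∑ m ∈ Ico A B, (c m - 1 / m) * F m =
        ∑ m ∈ Ico A B, c m * F m - ∑ m ∈ Ico A B, F m / m := by
      rw [← sum_sub_distrib]
      apply sum_congr rfl
      intro m _
      ring
    rw [h1]
    ring
  have hb1 : |c B * F B| ≤ 1 / A + S.h := by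
    rw [abs_mul, abs_of_nonneg (hc0 B)]
    have h1 := mul_le_mul_of_nonneg_left (hFm B) (hc0 B)
    have h2 := hc1 B hAB
    have h3 := hinv B hAB
    linarith
  have hb2 : |∑ m ∈ Ico A B, (c m - 1 / m) * F m| ≤ 2 / A + S.h * B := by
    refine (abs_sum_le_sum_abs _ _).trans ?_
    rcases hAB.eq_or_lt with h | h
    · rw [h, Ico_self, sum_empty]
      positivity
    · rw [sum_eq_sum_Ico_succ_bot h]
      have e1 : |(c A - 1 / A) * F A| ≤ 1 / A + S.h := by
        rw [abs_mul]
        have h1 : |c A - 1 / A| ≤ 1 / A + S.h := by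
          rw [abs_le]
          have h2 := hc1 A le_rfl
          have h3 := hc0 A
          have h4 : 0 < 1 / (A : ℝ) := by positivity
          constructor <;> linarith
        have h2 := mul_le_mul_of_nonneg_left (hFm A) (abs_nonneg (c A - 1 / A))
        linarith
      have e2 : ∑ m ∈ Ico (A + 1) B, |(c m - 1 / m) * F m| ≤
          ∑ m ∈ Ico (A + 1) B, (S.h + (1 / (m : ℝ) - 1 / (m + 1))) := by
        apply sum_le_sum
        intro m hm
        rw [mem_Ico] at hm
        have h1 : |c m - 1 / m| ≤ S.h + (1 / (m : ℝ) - 1 / (m + 1)) := by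
          have h2 : c m ≤ 1 / m + S.h := hc1 m (by omega)
          have h3 : Real.log (m + 1) - Real.log m - S.h ≤ c m := by
            rw [hc]
            exact (card_fiber hh (by omega)).2.2 (by omega) (by omega)
          have h4 := log_lower (m := m) (by omega)
          have h5 : 1 / ((m : ℝ) + 1) ≤ 1 / m := by
            apply one_div_le_one_div_of_le
            · have : 0 < m := by omega
              exact_mod_cast this
            · linarith
          rw [abs_le]
          constructor <;> linarith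
        rw [abs_mul]
        have h2 := mul_le_mul_of_nonneg_left (hFm m) (abs_nonneg (c m - 1 / m))
        linarith
      rw [sum_tel S.h A B (by omega)] at e2
      have e3 : 1 / ((A : ℝ) + 1) ≤ 1 / A := one_div_le_one_div_of_le hA0 (by linarith)
      have e4 : 0 < 1 / (B : ℝ) := by positivity
      have e5 : S.h * ((B : ℝ) - A - 1) ≤ S.h * B - S.h := by
        have : S.h * ((B : ℝ) - A - 1) = S.h * B - S.h * A - S.h := by ring
        rw [this]
        have := mul_nonneg hh.le hA0.le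
        linarith
      have e6 : (2 : ℝ) / A = 1 / A + 1 / A := by ring
      rw [e6]
      linarith
  have hfin : S.h * (B : ℝ) + S.h ≤ 4 * S.h * S.X := by
    have h1 := mul_le_mul_of_nonneg_left hBX hh.le
    have h2 : S.h * 2 ≤ S.h * B := mul_le_mul_of_nonneg_left (by linarith) hh.le
    linarith
  rw [hdiff]
  refine (abs_add_le _ _).trans ?_
  have h6 : (3 : ℝ) / A = 1 / A + 2 / A := by ring
  linarith

end Pool.Agent.H61.G3.SC
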